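import Mathlib
import Pool.Agent.Helper43.RK.St

/-!
# Module RN of project RK: the element `n` in the case `z = 1`
-/

set_option autoImplicit false

namespace Pool.Agent.Helper88.RK

open Pool.Agent.Helper43.RK

variable {G : Type} [Group G]

theorem can {x : G} (h : x * x = 1) (g : G) : x * (x * g) = g := by
  rw [← mul_assoc, h, one_mul]

theorem hRN : StRN := by
  intro R _ G _ D hz
  have hp : D.a (D.y : R) * D.a (D.y : R) = 1 := D.aa _
  have hb : D.b 1 * D.b 1 = 1 := D.bb _
  have ha : D.a 1 * D.a 1 = 1 := D.aa _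
  have hβ : D.b ((D.y⁻¹ : Rˣ) : R) * D.b ((D.y⁻¹ : Rˣ) : R) = 1 := D.bb _
  have hc : D.c * D.c = 1 := D.c2
  have hcdef : D.c = D.a 1 * D.b 1 * D.a 1 * D.b 1 := rfl
  have hpa : D.a (D.y : R) * D.a 1 = D.a 1 * D.a (D.y : R) := D.acomm _ _
  have hca : D.c * D.a 1 * D.c = D.a 1 := by rw [D.hac, map_one]
  have hcp : D.c * D.a (D.y : R) * D.c = D.a 1 * D.a (D.y : R) := by
    rw [D.hac, D.bary, D.yb_eq, D.a_add]
  have hbβ : D.b 1 * D.b ((D.y⁻¹ : Rˣ) : R) = D.b ((D.y⁻¹ : Rˣ) : R) * D.b 1 := D.bcomm _ _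
  have hS : D.S = D.Yb⁻¹ * D.Y := by
    have h := D.YYb
    simp only [Dt.S]
    calc D.Y * D.Yb⁻¹ = D.Yb⁻¹ * (D.Yb * D.Y) * D.Yb⁻¹ := by group
      _ = D.Yb⁻¹ * (D.Y * D.Yb) * D.Yb⁻¹ := by rw [h]
      _ = D.Yb⁻¹ * D.Y := by group
  have hcYi : D.c * D.Y⁻¹ * D.c = D.Yb⁻¹ := by
    rw [← D.hcY, mul_inv_rev, mul_inv_rev, D.cinv, mul_assoc]
  -- conjugate of c by Y
  have hcy1 : D.Y⁻¹ * D.c * D.Y = D.c * D.S := by
    rw [hS, ← hcYi]
    simp only [mul_assoc]
    rw [can hc]
  have hcy2 : D.Y⁻¹ * D.c * D.Y = D.a (D.y : R) * D.b ((D.y⁻¹ : Rˣ) : R) * D.a (D.y : R) *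
      D.b ((D.y⁻¹ : Rˣ) : R) := by
    have h1 := D.aY 1
    have h2 := D.bY 1
    rw [mul_one] at h1 h2
    rw [← h1, ← h2, hcdef]
    group
  have hcs : D.s⁻¹ = D.yb * D.y⁻¹ := by simp [Dt.s]
  have hsi : ((D.s⁻¹ : Rˣ) : R) = 1 + ((D.y⁻¹ : Rˣ) : R) := by
    rw [hcs, Units.val_mul, D.yb_eq, add_mul, Units.mul_inv, one_mul, add_comm]
  have e1 := D.s_eq
  have e2 := D.inv_sum
  have e3 := D.bar_yinv
  have haS := D.aS 1
  rw [mul_one] at haS
  have hbS := D.bS 1
  rw [mul_one, hsi, D.b_add] at hbS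
  have hcb : D.c * D.b 1 * D.c = D.b 1 := by rw [D.hbc, map_one]
  have hcβ : D.c * D.b ((D.y⁻¹ : Rˣ) : R) * D.c = D.b ((D.yb⁻¹ : Rˣ) : R) := by
    rw [D.hbc, e3]
  have hee : D.b ((D.yb⁻¹ : Rˣ) : R) * D.b ((D.y⁻¹ : Rˣ) : R) = D.b (D.e : R) := by
    rw [← D.b_add, add_comm, e2]
  have hsy : D.a (D.s : R) = D.a 1 * D.a ((D.e : R) * (D.y : R)) := by
    rw [e1, D.a_add]
  have hz' : (D.a (D.y : R) * D.b 1) ^ 3 = 1 := hz
  have hn : D.n = D.a (D.y : R) * D.b 1 * D.a (D.y : R) := rfl
  clear hcs hsi e1 e2 e3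
  generalize D.a (D.y : R) = p at *
  generalize D.b ((D.y⁻¹ : Rˣ) : R) = β at *
  generalize D.b ((D.yb⁻¹ : Rˣ) : R) = β' at *
  generalize D.b (D.e : R) = be at *
  generalize D.a ((D.e : R) * (D.y : R)) = aey at *
  generalize D.a (D.s : R) = as at *
  generalize D.a 1 = a at *
  generalize D.b 1 = b at *
  generalize D.c = c at *
  generalize D.S = S at *
  generalize D.n = n at *
  -- pure group theory
  have hpbp : p * b * p = b * p * b := by
    have h1 : (p * b * p) * (b * p * b) = 1 := by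
      rw [← hz']; simp only [pow_succ, pow_zero, one_mul, mul_assoc]
    have h2 : (b * p * b) * (b * p * b) = 1 := by
      simp only [mul_assoc]
      rw [can hb, can hp, hb]
    have h3 : (p * b * p) * (b * p * b) = (b * p * b) * (b * p * b) := by rw [h1, h2]
    exact mul_right_cancel h3
  have hn2 : n = b * p * b := by rw [hn, hpbp]
  have hnn : n * n = 1 := by
    rw [hn]
    simp only [mul_assoc]
    rw [can hp, can hb, hp]
  have hnp : n * p * n = b := by
    calc n * p * n = (p * b * p) * p * (p * b * p) := by rw [hn]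
      _ = p * (b * p * b) * p := by
        simp only [mul_assoc]
        rw [can hp]
      _ = p * (p * b * p) * p := by rw [hpbp]
      _ = b := by
        simp only [mul_assoc]
        rw [can hp, hp, mul_one]
  have hca' : c * a = a * c := by
    calc c * a = (c * a * c) * c := by rw [mul_assoc, hc, mul_one]
      _ = a * c := by rw [hca]
  have hbab : b * a * b = a * c := by
    rw [hcdef]
    simp only [mul_assoc]
    rw [can ha]
  have hpc : p * c * p = a * c := by
    have h1 : p * c = c * (a * p) := by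
      rw [← hcp]
      simp only [mul_assoc]
      rw [can hc]
    rw [h1]
    simp only [mul_assoc]
    rw [hp, mul_one, hca']
  have hpap : p * a * p = a := by
    rw [hpa, mul_assoc, hp, mul_one]
  have hna : n * a * n = c := by
    calc n * a * n = p * (b * (p * a * p) * b) * p := by rw [hn]; simp only [mul_assoc]
      _ = p * (a * c) * p := by rw [hpap, hbab]
      _ = (p * a * p) * (p * c * p) := by
        simp only [mul_assoc]
        rw [can hp]
      _ = c := by rw [hpap, hpc, ← mul_assoc, ha, one_mul]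
  have hnc : n * c * n = a := by
    rw [← hna]
    simp only [mul_assoc]
    rw [can hnn, hnn, mul_one]
  -- cy
  obtain ⟨k, hk⟩ : ∃ k : G, k = c * S := ⟨_, rfl⟩
  have hk1 : k = p * β * p * β := by rw [hk, ← hcy1, hcy2]
  have hkk : k * k = 1 := by
    rw [hk, ← hcy1]
    calc D.Y⁻¹ * c * D.Y * (D.Y⁻¹ * c * D.Y) = D.Y⁻¹ * (c * c) * D.Y := by group
      _ = 1 := by rw [hc]; group
  have hSk : S = c * k := by rw [hk, can hc]
  have hki : k = S⁻¹ * c := by
    have h1 : k⁻¹ = k := inv_eq_of_mul_eq_one_left hkk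
    have h2 : c⁻¹ = c := inv_eq_of_mul_eq_one_left hc
    calc k = k⁻¹ := h1.symm
      _ = S⁻¹ * c := by rw [hk, mul_inv_rev, h2]
  have hpβ : p * β * p = k * β := by
    rw [hk1]
    simp only [mul_assoc]
    rw [hβ, mul_one]
  have hkb : k * b * k = b * β := by
    calc k * b * k = (S⁻¹ * c) * b * (c * S) := by rw [← hki, ← hk]
      _ = S⁻¹ * (c * b * c) * S := by simp only [mul_assoc]
      _ = b * β := by rw [hcb, hbS]
  have hbk : b * k * b = β * k := by
    calc b * k * b = b * (k * b * k) * k := by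
          simp only [mul_assoc]
          rw [hkk, mul_one]
      _ = β * k := by
          rw [hkb]
          simp only [mul_assoc]
          rw [can hb]
  have hβk : β * k * β = k := by
    have h1 : k⁻¹ = k := inv_eq_of_mul_eq_one_left hkk
    have h2 : β⁻¹ = β := inv_eq_of_mul_eq_one_left hβ
    have h3 : p⁻¹ = p := inv_eq_of_mul_eq_one_left hp
    calc β * k * β = β * p * β * p := by
          rw [hk1]
          simp only [mul_assoc]
          rw [hβ, mul_one]
      _ = k⁻¹ := by rw [hk1]; simp only [mul_inv_rev, h2, h3, mul_assoc]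
      _ = k := h1
  have hbβb : b * β * b = β := by
    rw [hbβ, mul_assoc, hb, mul_one]
  have hnβ : n * β * n = k := by
    calc n * β * n = b * (p * (b * β * b) * p) * b := by rw [hn2]; simp only [mul_assoc]
      _ = b * k * (β * b) := by rw [hbβb, hpβ]; simp only [mul_assoc]
      _ = (b * k * b) * β := by rw [← hbβ]; simp only [mul_assoc]
      _ = k := by rw [hbk, hβk]
  have hnk : n * k * n = β := by
    rw [← hnβ]
    simp only [mul_assoc]
    rw [can hnn, hnn, mul_one]
  have hnS : n * S * n = a * β := by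
    calc n * S * n = (n * c * n) * (n * k * n) := by
          rw [hSk]
          simp only [mul_assoc]
          rw [can hnn]
      _ = a * β := by rw [hnc, hnk]
  have hnSi : n * S⁻¹ * n = β * a := by
    have h1 : n⁻¹ = n := inv_eq_of_mul_eq_one_left hnn
    have h2 : β⁻¹ = β := inv_eq_of_mul_eq_one_left hβ
    have h3 : a⁻¹ = a := inv_eq_of_mul_eq_one_left ha
    have h4 : (n * S * n)⁻¹ = (a * β)⁻¹ := by rw [hnS]
    simp only [mul_inv_rev, h1, h2, h3] at h4
    rw [← mul_assoc] at h4
    exact h4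
  have hnas : n * as * n = c * be := by
    calc n * as * n = (n * S⁻¹ * n) * (n * a * n) * (n * S * n) := by
          rw [← haS]
          simp only [mul_assoc]
          rw [can hnn, can hnn]
      _ = β * (a * c * a) * β := by rw [hnSi, hna, hnS]; simp only [mul_assoc]
      _ = β * c * β := by
          rw [← hca', mul_assoc c, ha, mul_one]
      _ = c * ((c * β * c) * β) := by
          simp only [mul_assoc]
          rw [can hc]
      _ = c * be := by rw [hcβ, hee]
  have hnaey : n * aey * n = be := by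
    have h1 : aey = a * as := by rw [hsy, can ha]
    calc n * aey * n = (n * a * n) * (n * as * n) := by
          rw [h1]
          simp only [mul_assoc]
          rw [can hnn]
      _ = be := by rw [hna, hnas, can hc]
  refine ⟨hnn, hn2, hnp, hna, ?_, hnS, hnas, hnaey⟩
  rw [hnβ, hk]

end Pool.Agent.Helper88.RK
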